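import Pool.Agent.N110.CC.Stm

set_option autoImplicit false

/-! Project CC (helper110), part CE (helper707): common eigenvectors in a closed pointed cone. -/

namespace Pool.Agent.N707.CC

open Pool.Agent.N110.CC

variable {ρ : ℕ}

theorem zero_mem {C : Set (Fin ρ → ℝ)} (hC : PC C) {x : Fin ρ → ℝ} (hx : x ∈ C) : 0 ∈ C := by
  have h := hC.smul 0 le_rfl x hx
  rwa [zero_smul] at h

theorem sum_mem {C : Set (Fin ρ → ℝ)} (hC : PC C) (h0 : (0 : Fin ρ → ℝ) ∈ C) {ι : Type*}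
    (T : Finset ι) (f : ι → Fin ρ → ℝ) (hf : ∀ b ∈ T, f b ∈ C) : ∑ b ∈ T, f b ∈ C := by
  classical
  induction T using Finset.induction_on with
  | empty => simpa using h0
  | insert a T ha ih =>
    rw [Finset.sum_insert ha]
    exact hC.add _ (hf a (Finset.mem_insert_self a T)) _
      (ih fun b hb => hf b (Finset.mem_insert_of_mem hb))

/-- order units -/
theorem exists_unit {C : Set (Fin ρ → ℝ)} (hC : PC C) (hne : ∃ x ∈ C, x ≠ 0) :
    ∃ u ∈ C, u ≠ 0 ∧ ∀ x ∈ C, ∃ t : ℝ, 0 ≤ t ∧ t • u - x ∈ C := by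
  classical
  obtain ⟨x₀, hx₀, hx₀'⟩ := hne
  have h0 := zero_mem hC hx₀
  obtain ⟨T, hTC, hT⟩ := (Submodule.fg_span_iff_fg_span_finset_subset (R := ℝ) C).1
    (IsNoetherian.noetherian (Submodule.span ℝ C))
  have hspan : ∀ x ∈ C, ∃ c : (Fin ρ → ℝ) → ℝ, ∑ b ∈ T, c b • b = x := by
    intro x hx
    have h1 : x ∈ Submodule.span ℝ (T : Set (Fin ρ → ℝ)) := hT ▸ Submodule.subset_span hx
    obtain ⟨c, -, hc⟩ := Submodule.mem_span_finset.1 h1
    exact ⟨c, hc⟩
  refine ⟨∑ b ∈ T, b, sum_mem hC h0 T _ fun b hb => hTC hb, fun hu => ?_, fun x hx => ?_⟩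
  · have hb0 : ∀ b ∈ T, b = 0 := by
      intro b hb
      refine hC.pointed b (hTC hb) ?_
      have h1 : -b = ∑ a ∈ T.erase b, a := by
        rw [← Finset.add_sum_erase T (fun a => a) hb] at hu
        exact neg_eq_of_add_eq_zero_right hu
      rw [h1]
      exact sum_mem hC h0 _ _ fun a ha => hTC (Finset.mem_of_mem_erase ha)
    obtain ⟨c, hc⟩ := hspan x₀ hx₀
    apply hx₀'
    rw [← hc]
    exact Finset.sum_eq_zero fun b hb => by rw [hb0 b hb, smul_zero]
  · obtain ⟨c, hc⟩ := hspan x hx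
    refine ⟨∑ b ∈ T, |c b|, Finset.sum_nonneg fun b _ => abs_nonneg _, ?_⟩
    rw [← hc, Finset.smul_sum, ← Finset.sum_sub_distrib]
    refine sum_mem hC h0 T _ fun b hb => ?_
    rw [← sub_smul]
    refine hC.smul _ ?_ b (hTC hb)
    have h1 : |c b| ≤ ∑ a ∈ T, |c a| :=
      Finset.single_le_sum (f := fun a => |c a|) (fun a _ => abs_nonneg _) hb
    have h2 := le_abs_self (c b)
    linarith

theorem leafCE (hPF : S_PF) : S_CE := by
  intro ρ r C hC hne g hg hgC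
  classical
  have key : ∀ I : Finset (Fin r), ∃ C' : Set (Fin ρ → ℝ), PC C' ∧ C' ⊆ C ∧ (∃ x ∈ C', x ≠ 0) ∧
      (∀ j, ∀ x ∈ C', g j x ∈ C') ∧ ∀ i ∈ I, ∃ χ : ℝ, ∀ x ∈ C', g i x = χ • x := by
    intro I
    induction I using Finset.induction_on with
    | empty => exact ⟨C, hC, subset_rfl, hne, hgC, fun i hi => absurd hi (Finset.notMem_empty i)⟩
    | insert i I _ ih =>
      obtain ⟨D, hD, hDC, hDne, hDg, hDI⟩ := ih
      obtain ⟨u, hu, hu0, hunit⟩ := exists_unit hD hDne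
      obtain ⟨x, hx, hx0, μ, -, hxμ, -⟩ := hPF ρ D hD u hu hu0 hunit (g i) (hDg i)
      refine ⟨D ∩ {y | g i y = μ • y}, ⟨?_, ?_, ?_, ?_⟩, fun y hy => hDC hy.1,
        ⟨x, ⟨hx, hxμ⟩, hx0⟩, ?_, ?_⟩
      · exact hD.closed.inter (isClosed_eq (LinearMap.continuous_of_finiteDimensional (g i))
          (continuous_const_smul μ))
      · rintro y ⟨hy, hy'⟩ z ⟨hz, hz'⟩
        have hy'' : g i y = μ • y := hy'
        have hz'' : g i z = μ • z := hz'
        refine ⟨hD.add y hy z hz, ?_⟩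
        show g i (y + z) = μ • (y + z)
        rw [map_add, hy'', hz'', smul_add]
      · rintro t ht y ⟨hy, hy'⟩
        have hy'' : g i y = μ • y := hy'
        refine ⟨hD.smul t ht y hy, ?_⟩
        show g i (t • y) = μ • (t • y)
        rw [map_smul, hy'', smul_comm]
      · rintro y ⟨hy, -⟩ ⟨hy', -⟩
        exact hD.pointed y hy hy'
      · rintro j y ⟨hy, hy'⟩
        have hy'' : g i y = μ • y := hy'
        refine ⟨hDg j y hy, ?_⟩
        show g i (g j y) = μ • g j y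
        have h1 : g i (g j y) = g j (g i y) := LinearMap.congr_fun (hg i j) y
        rw [h1, hy'', map_smul]
      · intro k hk
        rcases Finset.mem_insert.1 hk with rfl | hk
        · exact ⟨μ, fun y hy => hy.2⟩
        · obtain ⟨χ, hχ⟩ := hDI k hk
          exact ⟨χ, fun y hy => hχ y hy.1⟩
  obtain ⟨D, -, hDC, ⟨x, hx, hx0⟩, -, hDI⟩ := key Finset.univ
  refine ⟨x, hDC hx, hx0, fun i => ?_⟩
  obtain ⟨χ, hχ⟩ := hDI i (Finset.mem_univ i)
  exact ⟨χ, hχ x hx⟩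

end Pool.Agent.N707.CC
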